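import Pool.Agent.Lib.MP_fa837f_gt.TS.Iface

/-!
Module MOLL (helper16): smoothing of an admissible function by averaging operators.
-/

set_option autoImplicit false

open MeasureTheory Set Filter Topology

namespace Pool.Agent.Lib.MP_fa837f_gt.TS.H16

/-- Joint continuity. -/
def JC (g : ℝ → ℝ → ℝ) : Prop := Continuous fun z : ℝ × ℝ => g z.1 z.2

/-- Average in the second variable. -/
noncomputable def Mr (d : ℝ) (g : ℝ → ℝ → ℝ) : ℝ → ℝ → ℝ :=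
  fun θ ρ => ∫ s in (0 : ℝ)..1, g θ (ρ + d * s)

/-- Average in the first variable. -/
noncomputable def Mt (d : ℝ) (g : ℝ → ℝ → ℝ) : ℝ → ℝ → ℝ :=
  fun θ ρ => ∫ s in (0 : ℝ)..1, g (θ + d * s) ρ

/-- Difference quotient in the second variable. -/
noncomputable def Dr (d : ℝ) (g : ℝ → ℝ → ℝ) : ℝ → ℝ → ℝ :=
  fun θ ρ => (g θ (ρ + d) - g θ ρ) / d

/-- Difference quotient in the first variable. -/
noncomputable def Dt (d : ℝ) (g : ℝ → ℝ → ℝ) : ℝ → ℝ → ℝ :=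
  fun θ ρ => (g (θ + d) ρ - g θ ρ) / d

section basic

variable {d : ℝ} {g : ℝ → ℝ → ℝ}

theorem JC.comp2 (h : JC g) {X : Type*} [TopologicalSpace X] {u v : X → ℝ} (hu : Continuous u)
    (hv : Continuous v) : Continuous fun x => g (u x) (v x) :=
  Continuous.comp (g := fun z : ℝ × ℝ => g z.1 z.2) h (hu.prodMk hv)

theorem jc_Mr (h : JC g) : JC (Mr d g) := by
  unfold JC Mr
  refine intervalIntegral.continuous_parametric_intervalIntegral_of_continuous' ?_ _ _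
  exact h.comp2 (u := fun p : (ℝ × ℝ) × ℝ => p.1.1) (v := fun p => p.1.2 + d * p.2)
    (by fun_prop) (by fun_prop)

theorem jc_Mt (h : JC g) : JC (Mt d g) := by
  unfold JC Mt
  refine intervalIntegral.continuous_parametric_intervalIntegral_of_continuous' ?_ _ _
  exact h.comp2 (u := fun p : (ℝ × ℝ) × ℝ => p.1.1 + d * p.2) (v := fun p => p.1.2)
    (by fun_prop) (by fun_prop)

theorem jc_Dr (h : JC g) : JC (Dr d g) := by
  unfold JC Dr
  exact ((h.comp2 (by fun_prop) (by fun_prop)).sub h).div_const d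

theorem jc_Dt (h : JC g) : JC (Dt d g) := by
  unfold JC Dt
  exact ((h.comp2 (by fun_prop) (by fun_prop)).sub h).div_const d

theorem cr (h : JC g) (θ ρ : ℝ) : Continuous fun s => g θ (ρ + d * s) :=
  h.comp2 (by fun_prop) (by fun_prop)

theorem ct (h : JC g) (θ ρ : ℝ) : Continuous fun s => g (θ + d * s) ρ :=
  h.comp2 (by fun_prop) (by fun_prop)

/-- One-dimensional derivative of the average. -/
theorem deriv_avg (hd : d ≠ 0) {f : ℝ → ℝ} (hf : Continuous f) (x : ℝ) :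
    HasDerivAt (fun x => ∫ s in (0 : ℝ)..1, f (x + d * s)) ((f (x + d) - f x) / d) x := by
  have h1 : (fun x => ∫ s in (0 : ℝ)..1, f (x + d * s)) =
      fun x => ((∫ y in (0 : ℝ)..(x + d), f y) - ∫ y in (0 : ℝ)..x, f y) / d := by
    funext x
    rw [intervalIntegral.integral_comp_add_mul f hd x, mul_zero, add_zero, mul_one, smul_eq_mul,
      intervalIntegral.integral_interval_sub_left (hf.intervalIntegrable _ _)
        (hf.intervalIntegrable _ _)]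
    ring
  rw [h1]
  have h2 : ∀ y : ℝ, HasDerivAt (fun x => ∫ y in (0 : ℝ)..x, f y) (f y) y := fun y =>
    intervalIntegral.integral_hasDerivAt_right (hf.intervalIntegrable _ _)
      hf.stronglyMeasurable.stronglyMeasurableAtFilter hf.continuousAt
  have h3 : HasDerivAt (fun x => ∫ y in (0 : ℝ)..(x + d), f y) (f (x + d)) x := by
    have := (h2 (x + d)).comp_add_const x d
    exact this
  exact (h3.sub (h2 x)).div_const d

theorem deriv_Mr (hd : d ≠ 0) (h : JC g) (θ ρ : ℝ) :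
    HasDerivAt (fun x => Mr d g θ x) (Dr d g θ ρ) ρ :=
  deriv_avg hd (f := fun x => g θ x) (h.comp2 (by fun_prop) (by fun_prop)) ρ

theorem deriv_Mt (hd : d ≠ 0) (h : JC g) (θ ρ : ℝ) :
    HasDerivAt (fun x => Mt d g x ρ) (Dt d g θ ρ) θ :=
  deriv_avg hd (f := fun x => g x ρ) (h.comp2 (by fun_prop) (by fun_prop)) θ

theorem comm_Mr_Mt (h : JC g) : Mr d (Mt d g) = Mt d (Mr d g) := by
  funext θ ρ
  unfold Mr Mt
  refine intervalIntegral_intervalIntegral_swap ?_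
  have hc : Continuous (Function.uncurry fun s s' : ℝ => g (θ + d * s') (ρ + d * s)) :=
    h.comp2 (u := fun p : ℝ × ℝ => θ + d * p.2) (v := fun p => ρ + d * p.1)
      (by fun_prop) (by fun_prop)
  refine (hc.continuousOn.integrableOn_compact
    (isCompact_uIcc (a := (0 : ℝ)) (b := 1) |>.prod
      (isCompact_uIcc (a := (0 : ℝ)) (b := 1)))).mono_set ?_
  exact prod_mono uIoc_subset_uIcc uIoc_subset_uIcc

theorem comm_Mr_Dt (h : JC g) : Mr d (Dt d g) = Dt d (Mr d g) := by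
  funext θ ρ
  unfold Mr Dt
  rw [intervalIntegral.integral_div, intervalIntegral.integral_sub
    ((cr h _ _).intervalIntegrable _ _) ((cr h _ _).intervalIntegrable _ _)]

theorem comm_Mt_Dr (h : JC g) : Mt d (Dr d g) = Dr d (Mt d g) := by
  funext θ ρ
  unfold Mt Dr
  rw [intervalIntegral.integral_div, intervalIntegral.integral_sub
    ((ct h _ _).intervalIntegrable _ _) ((ct h _ _).intervalIntegrable _ _)]

theorem comm_Mr_Dr (h : JC g) : Mr d (Dr d g) = Dr d (Mr d g) := by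
  funext θ ρ
  unfold Mr Dr
  have e : (fun s => (g θ (ρ + d * s + d) - g θ (ρ + d * s)) / d) =
      fun s => (g θ (ρ + d + d * s) - g θ (ρ + d * s)) / d := by
    funext s
    rw [show ρ + d * s + d = ρ + d + d * s by ring]
  rw [e, intervalIntegral.integral_div, intervalIntegral.integral_sub
    ((cr h _ _).intervalIntegrable _ _) ((cr h _ _).intervalIntegrable _ _)]

theorem comm_Mt_Dt (h : JC g) : Mt d (Dt d g) = Dt d (Mt d g) := by
  funext θ ρ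
  unfold Mt Dt
  have e : (fun s => (g (θ + d * s + d) ρ - g (θ + d * s) ρ) / d) =
      fun s => (g (θ + d + d * s) ρ - g (θ + d * s) ρ) / d := by
    funext s
    rw [show θ + d * s + d = θ + d + d * s by ring]
  rw [e, intervalIntegral.integral_div, intervalIntegral.integral_sub
    ((ct h _ _).intervalIntegrable _ _) ((ct h _ _).intervalIntegrable _ _)]

theorem comm_Dr_Dt (g : ℝ → ℝ → ℝ) : Dr d (Dt d g) = Dt d (Dr d g) := by
  funext θ ρ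
  unfold Dr Dt
  ring

/-! ### Derivatives of the words -/

theorem d1 (hd : d ≠ 0) (h : JC g) (θ ρ : ℝ) :
    HasDerivAt (fun x => Mt d (Mt d (Mr d g)) θ x) (Mt d (Mt d (Dr d g)) θ ρ) ρ := by
  have e1 : Mt d (Mt d (Mr d g)) = Mr d (Mt d (Mt d g)) := by
    rw [← comm_Mr_Mt h, ← comm_Mr_Mt (jc_Mt h)]
  have e2 : Mt d (Mt d (Dr d g)) = Dr d (Mt d (Mt d g)) := by
    rw [comm_Mt_Dr h, comm_Mt_Dr (jc_Mt h)]
  rw [e1, e2]
  exact deriv_Mr hd (jc_Mt (jc_Mt h)) θ ρ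

theorem d2 (hd : d ≠ 0) (h : JC g) (θ ρ : ℝ) :
    HasDerivAt (fun x => Mt d (Dt d (Mr d g)) θ x) (Mt d (Dt d (Dr d g)) θ ρ) ρ := by
  have e1 : Mt d (Dt d (Mr d g)) = Mr d (Mt d (Dt d g)) := by
    rw [← comm_Mr_Dt h, ← comm_Mr_Mt (jc_Dt h)]
  have e2 : Mt d (Dt d (Dr d g)) = Dr d (Mt d (Dt d g)) := by
    rw [← comm_Dr_Dt, comm_Mt_Dr (jc_Dt h)]
  rw [e1, e2]
  exact deriv_Mr hd (jc_Mt (jc_Dt h)) θ ρ

theorem d3 (hd : d ≠ 0) (h : JC g) (θ ρ : ℝ) :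
    HasDerivAt (fun x => Dt d (Dt d (Mr d g)) θ x) (Dt d (Dt d (Dr d g)) θ ρ) ρ := by
  have e1 : Dt d (Dt d (Mr d g)) = Mr d (Dt d (Dt d g)) := by
    rw [← comm_Mr_Dt h, ← comm_Mr_Dt (jc_Dt h)]
  have e2 : Dt d (Dt d (Dr d g)) = Dr d (Dt d (Dt d g)) := by
    rw [← comm_Dr_Dt, ← comm_Dr_Dt]
  rw [e1, e2]
  exact deriv_Mr hd (jc_Dt (jc_Dt h)) θ ρ

theorem t1 (hd : d ≠ 0) (h : JC g) (θ ρ : ℝ) :
    HasDerivAt (fun x => Mt d (Mt d g) x ρ) (Mt d (Dt d g) θ ρ) θ := by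
  rw [comm_Mt_Dt h]
  exact deriv_Mt hd (jc_Mt h) θ ρ

theorem t2 (hd : d ≠ 0) (h : JC g) (θ ρ : ℝ) :
    HasDerivAt (fun x => Mt d (Dt d g) x ρ) (Dt d (Dt d g) θ ρ) θ :=
  deriv_Mt hd (jc_Dt h) θ ρ

/-! ### Bounds -/

theorem avg_le {f : ℝ → ℝ} (hf : Continuous f) {K : ℝ} (h : ∀ s, 0 ≤ s → s ≤ 1 → f s ≤ K) :
    ∫ s in (0 : ℝ)..1, f s ≤ K := by
  have hi : IntervalIntegrable f MeasureTheory.volume 0 1 := hf.intervalIntegrable _ _
  have h1 := intervalIntegral.integral_mono_on (a := (0 : ℝ)) (b := 1) (f := f)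
    (g := fun _ => K) zero_le_one hi intervalIntegrable_const
    (fun x hx => h x hx.1 hx.2)
  rw [intervalIntegral.integral_const, sub_zero, one_smul] at h1
  exact h1

theorem le_avg {f : ℝ → ℝ} (hf : Continuous f) {K : ℝ} (h : ∀ s, 0 ≤ s → s ≤ 1 → K ≤ f s) :
    K ≤ ∫ s in (0 : ℝ)..1, f s := by
  have hi : IntervalIntegrable f MeasureTheory.volume 0 1 := hf.intervalIntegrable _ _
  have h1 := intervalIntegral.integral_mono_on (a := (0 : ℝ)) (b := 1) (g := f)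
    (f := fun _ => K) zero_le_one intervalIntegrable_const hi
    (fun x hx => h x hx.1 hx.2)
  rw [intervalIntegral.integral_const, sub_zero, one_smul] at h1
  exact h1

theorem Mr_le (h : JC g) {K : ℝ} (hK : ∀ θ ρ, g θ ρ ≤ K) (θ ρ : ℝ) : Mr d g θ ρ ≤ K :=
  avg_le (cr h θ ρ) fun _ _ _ => hK _ _

theorem Mt_le (h : JC g) {K : ℝ} (hK : ∀ θ ρ, g θ ρ ≤ K) (θ ρ : ℝ) : Mt d g θ ρ ≤ K :=
  avg_le (ct h θ ρ) fun _ _ _ => hK _ _

theorem le_Mr (h : JC g) {K : ℝ} (hK : ∀ θ ρ, K ≤ g θ ρ) (θ ρ : ℝ) : K ≤ Mr d g θ ρ :=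
  le_avg (cr h θ ρ) fun _ _ _ => hK _ _

theorem le_Mt (h : JC g) {K : ℝ} (hK : ∀ θ ρ, K ≤ g θ ρ) (θ ρ : ℝ) : K ≤ Mt d g θ ρ :=
  le_avg (ct h θ ρ) fun _ _ _ => hK _ _

theorem abs_Mt (h : JC g) {K : ℝ} (hK : ∀ θ ρ, |g θ ρ| ≤ K) (θ ρ : ℝ) : |Mt d g θ ρ| ≤ K :=
  abs_le.2 ⟨le_Mt h (fun θ ρ => (abs_le.1 (hK θ ρ)).1) θ ρ,
    Mt_le h (fun θ ρ => (abs_le.1 (hK θ ρ)).2) θ ρ⟩

/-! ### Lipschitz functions -/

/-- Lipschitz with constants `L` and `1`. -/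
structure Lp (L : ℝ) (g : ℝ → ℝ → ℝ) : Prop where
  jc : JC g
  r : ∀ θ ρ ρ', |g θ ρ - g θ ρ'| ≤ |ρ - ρ'|
  t : ∀ θ θ' ρ, |g θ ρ - g θ' ρ| ≤ L * |θ - θ'|

theorem abs_avg {f : ℝ → ℝ} (hf : Continuous f) {K : ℝ} (h : ∀ s, 0 ≤ s → s ≤ 1 → |f s| ≤ K) :
    |∫ s in (0 : ℝ)..1, f s| ≤ K :=
  abs_le.2 ⟨le_avg hf fun s h0 h1 => (abs_le.1 (h s h0 h1)).1,
    avg_le hf fun s h0 h1 => (abs_le.1 (h s h0 h1)).2⟩

theorem avg_const (K : ℝ) : ∫ _ in (0 : ℝ)..1, K = K := by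
  rw [intervalIntegral.integral_const, sub_zero, one_smul]

theorem Lp.Mr {L : ℝ} (h : Lp L g) : Lp L (Mr d g) where
  jc := jc_Mr h.jc
  r := by
    intro θ ρ ρ'
    unfold H16.Mr
    rw [← intervalIntegral.integral_sub ((cr h.jc _ _).intervalIntegrable _ _)
      ((cr h.jc _ _).intervalIntegrable _ _)]
    refine abs_avg ((cr h.jc _ _).sub (cr h.jc _ _)) fun s _ _ => ?_
    refine (h.r _ _ _).trans (le_of_eq ?_)
    rw [show ρ + d * s - (ρ' + d * s) = ρ - ρ' by ring]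
  t := by
    intro θ θ' ρ
    unfold H16.Mr
    rw [← intervalIntegral.integral_sub ((cr h.jc _ _).intervalIntegrable _ _)
      ((cr h.jc _ _).intervalIntegrable _ _)]
    exact abs_avg ((cr h.jc _ _).sub (cr h.jc _ _)) fun s _ _ => h.t _ _ _

theorem Lp.Mt {L : ℝ} (h : Lp L g) : Lp L (Mt d g) where
  jc := jc_Mt h.jc
  r := by
    intro θ ρ ρ'
    unfold H16.Mt
    rw [← intervalIntegral.integral_sub ((ct h.jc _ _).intervalIntegrable _ _)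
      ((ct h.jc _ _).intervalIntegrable _ _)]
    exact abs_avg ((ct h.jc _ _).sub (ct h.jc _ _)) fun s _ _ => h.r _ _ _
  t := by
    intro θ θ' ρ
    unfold H16.Mt
    rw [← intervalIntegral.integral_sub ((ct h.jc _ _).intervalIntegrable _ _)
      ((ct h.jc _ _).intervalIntegrable _ _)]
    refine abs_avg ((ct h.jc _ _).sub (ct h.jc _ _)) fun s _ _ => ?_
    refine (h.t _ _ _).trans (le_of_eq ?_)
    rw [show θ + d * s - (θ' + d * s) = θ - θ' by ring]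

theorem Lp.near_Mr {L : ℝ} (h : Lp L g) (hd : 0 ≤ d) (θ ρ : ℝ) :
    |H16.Mr d g θ ρ - g θ ρ| ≤ d := by
  have e : H16.Mr d g θ ρ - g θ ρ = ∫ s in (0 : ℝ)..1, (g θ (ρ + d * s) - g θ ρ) := by
    rw [intervalIntegral.integral_sub ((cr h.jc _ _).intervalIntegrable _ _)
      intervalIntegrable_const, avg_const]
    rfl
  rw [e]
  refine abs_avg ((cr h.jc _ _).sub continuous_const) fun s h0 h1 => ?_
  refine (h.r _ _ _).trans ?_
  rw [add_sub_cancel_left, abs_of_nonneg (by positivity)]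
  nlinarith

theorem Lp.near_Mt {L : ℝ} (h : Lp L g) (hL : 0 ≤ L) (hd : 0 ≤ d) (θ ρ : ℝ) :
    |H16.Mt d g θ ρ - g θ ρ| ≤ L * d := by
  have e : H16.Mt d g θ ρ - g θ ρ = ∫ s in (0 : ℝ)..1, (g (θ + d * s) ρ - g θ ρ) := by
    rw [intervalIntegral.integral_sub ((ct h.jc _ _).intervalIntegrable _ _)
      intervalIntegrable_const, avg_const]
    rfl
  rw [e]
  refine abs_avg ((ct h.jc _ _).sub continuous_const) fun s h0 h1 => ?_
  refine (h.t _ _ _).trans ?_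
  rw [add_sub_cancel_left, abs_of_nonneg (by positivity)]
  exact mul_le_mul_of_nonneg_left (by nlinarith) hL

/-! ### Concavity -/

/-- Joint concavity. -/
def Cv (g : ℝ → ℝ → ℝ) : Prop := ConcaveOn ℝ Set.univ fun z : ℝ × ℝ => g z.1 z.2

theorem Cv.ineq (h : Cv g) (x y x' y' a b : ℝ) (ha : 0 ≤ a) (hb : 0 ≤ b) (hab : a + b = 1) :
    a * g x y + b * g x' y' ≤ g (a * x + b * x') (a * y + b * y') := by
  have := h.2 (mem_univ (x, y)) (mem_univ (x', y')) ha hb hab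
  simpa using this

theorem cv_of {g : ℝ → ℝ → ℝ} (h : ∀ x y x' y' a b : ℝ, 0 ≤ a → 0 ≤ b → a + b = 1 →
    a * g x y + b * g x' y' ≤ g (a * x + b * x') (a * y + b * y')) : Cv g := by
  refine ⟨convex_univ, ?_⟩
  rintro ⟨x, y⟩ _ ⟨x', y'⟩ _ a b ha hb hab
  simpa using h x y x' y' a b ha hb hab

theorem avg_cv {f f₁ f₂ : ℝ → ℝ} {a b : ℝ} (hf : Continuous f) (hf₁ : Continuous f₁)
    (hf₂ : Continuous f₂) (h : ∀ s, a * f₁ s + b * f₂ s ≤ f s) :
    a * (∫ s in (0 : ℝ)..1, f₁ s) + b * (∫ s in (0 : ℝ)..1, f₂ s) ≤ ∫ s in (0 : ℝ)..1, f s := by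
  have i1 : IntervalIntegrable (fun s => a * f₁ s) MeasureTheory.volume 0 1 :=
    (continuous_const.mul hf₁).intervalIntegrable _ _
  have i2 : IntervalIntegrable (fun s => b * f₂ s) MeasureTheory.volume 0 1 :=
    (continuous_const.mul hf₂).intervalIntegrable _ _
  have i3 : IntervalIntegrable f MeasureTheory.volume 0 1 := hf.intervalIntegrable _ _
  rw [← intervalIntegral.integral_const_mul, ← intervalIntegral.integral_const_mul,
    ← intervalIntegral.integral_add i1 i2]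
  exact intervalIntegral.integral_mono_on zero_le_one (i1.add i2) i3 fun s _ => h s

theorem Cv.Mr (hc : JC g) (h : Cv g) : Cv (Mr d g) := by
  refine cv_of fun x y x' y' a b ha hb hab => ?_
  refine avg_cv (cr hc _ _) (cr hc _ _) (cr hc _ _) fun s => ?_
  refine (h.ineq _ _ _ _ a b ha hb hab).trans (le_of_eq ?_)
  congr 1
  have : b = 1 - a := by linarith
  subst this
  ring

theorem Cv.Mt (hc : JC g) (h : Cv g) : Cv (Mt d g) := by
  refine cv_of fun x y x' y' a b ha hb hab => ?_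
  refine avg_cv (ct hc _ _) (ct hc _ _) (ct hc _ _) fun s => ?_
  refine (h.ineq _ _ _ _ a b ha hb hab).trans (le_of_eq ?_)
  congr 1
  have : b = 1 - a := by linarith
  subst this
  ring

theorem Cv.Drr (h : Cv g) (hd : 0 < d) (θ ρ : ℝ) : Dr d (Dr d g) θ ρ ≤ 0 := by
  have h1 := h.ineq θ ρ θ (ρ + d + d) (1 / 2) (1 / 2) (by norm_num) (by norm_num) (by norm_num)
  rw [show 1 / 2 * θ + 1 / 2 * θ = θ by ring,
    show 1 / 2 * ρ + 1 / 2 * (ρ + d + d) = ρ + d by ring] at h1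
  unfold Dr
  rw [← sub_div]
  refine div_nonpos_of_nonpos_of_nonneg (div_nonpos_of_nonpos_of_nonneg ?_ hd.le) hd.le
  linarith

theorem Cv.Dtt (h : Cv g) (hd : 0 < d) (θ ρ : ℝ) : Dt d (Dt d g) θ ρ ≤ 0 := by
  have h1 := h.ineq θ ρ (θ + d + d) ρ (1 / 2) (1 / 2) (by norm_num) (by norm_num) (by norm_num)
  rw [show 1 / 2 * ρ + 1 / 2 * ρ = ρ by ring,
    show 1 / 2 * θ + 1 / 2 * (θ + d + d) = θ + d by ring] at h1
  unfold Dt
  rw [← sub_div]
  refine div_nonpos_of_nonpos_of_nonneg (div_nonpos_of_nonpos_of_nonneg ?_ hd.le) hd.le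
  linarith

theorem abs_Dt (hd : 0 < d) {K : ℝ} (hK : ∀ θ ρ, |g θ ρ| ≤ K) (θ ρ : ℝ) :
    |Dt d g θ ρ| ≤ 2 * K / d := by
  unfold Dt
  rw [abs_div, abs_of_pos hd]
  refine div_le_div_of_nonneg_right ?_ hd.le
  have h1 := abs_le.1 (hK (θ + d) ρ)
  have h2 := abs_le.1 (hK θ ρ)
  rw [abs_le]
  constructor <;> linarith [h1.1, h1.2, h2.1, h2.2]

theorem abs_Dr (hd : 0 < d) {K : ℝ} (hK : ∀ θ ρ, |g θ ρ| ≤ K) (θ ρ : ℝ) :
    |Dr d g θ ρ| ≤ 2 * K / d := by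
  unfold Dr
  rw [abs_div, abs_of_pos hd]
  refine div_le_div_of_nonneg_right ?_ hd.le
  have h1 := abs_le.1 (hK θ (ρ + d))
  have h2 := abs_le.1 (hK θ ρ)
  rw [abs_le]
  constructor <;> linarith [h1.1, h1.2, h2.1, h2.2]

theorem Lp.abs_Dt {L : ℝ} (h : Lp L g) (hd : 0 < d) (θ ρ : ℝ) : |H16.Dt d g θ ρ| ≤ L := by
  unfold H16.Dt
  rw [abs_div, abs_of_pos hd, div_le_iff₀ hd]
  refine (h.t _ _ _).trans (le_of_eq ?_)
  rw [add_sub_cancel_left, abs_of_pos hd]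

end basic

/-! ### The second derivative of a concave function -/

theorem cont_span {g : ℝ → ℝ → ℝ} (hg : JC g) : Continuous (Function.HasUncurry.uncurry
    (fun x y : ℝ => (ContinuousLinearMap.toSpanSingleton ℝ (g x y) : ℝ →L[ℝ] ℝ))) := by
  have h1 : Continuous fun z : ℝ × ℝ => g z.1 z.2 • (1 : ℝ →L[ℝ] ℝ) :=
    Continuous.smul hg continuous_const
  refine h1.congr fun z => ?_
  ext
  simp [Function.HasUncurry.uncurry, ContinuousLinearMap.toSpanSingleton_apply]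

theorem chain {f fa fp : ℝ → ℝ → ℝ} (hfa : ∀ θ ρ, HasDerivAt (fun x => f x ρ) (fa θ ρ) θ)
    (hfp : ∀ θ ρ, HasDerivAt (fun x => f θ x) (fp θ ρ) ρ) (ca : JC fa) (cp : JC fp)
    (θ ρ u v s : ℝ) : HasDerivAt (fun s => f (θ + u * s) (ρ + v * s))
      (fa (θ + u * s) (ρ + v * s) * u + fp (θ + u * s) (ρ + v * s) * v) s := by
  have h1 := hasStrictFDerivAt_uncurry_coprod (𝕜 := ℝ) (u := (θ + u * s, ρ + v * s)) (f := f)
    (f₁ := fun x y => (ContinuousLinearMap.toSpanSingleton ℝ (fa x y)))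
    (f₂ := fun x y => (ContinuousLinearMap.toSpanSingleton ℝ (fp x y)))
    (Eventually.of_forall fun z => (hfa z.1 z.2).hasFDerivAt)
    (Eventually.of_forall fun z => (hfp z.1 z.2).hasFDerivAt)
    (Continuous.continuousAt (cont_span ca))
    (Continuous.continuousAt (cont_span cp))
  have h2 : HasDerivAt (fun s : ℝ => (θ + u * s, ρ + v * s)) (u, v) s := by
    have e1 : HasDerivAt (fun s : ℝ => θ + u * s) u s := by
      simpa using ((hasDerivAt_id s).const_mul u).const_add θ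
    have e2 : HasDerivAt (fun s : ℝ => ρ + v * s) v s := by
      simpa using ((hasDerivAt_id s).const_mul v).const_add ρ
    exact e1.prodMk e2
  have h3 := h1.hasFDerivAt.comp_hasDerivAt s h2
  have e : ((((↿fun x y => (ContinuousLinearMap.toSpanSingleton ℝ (fa x y) : ℝ →L[ℝ] ℝ))
      (θ + u * s, ρ + v * s)).coprod
      ((↿fun x y => (ContinuousLinearMap.toSpanSingleton ℝ (fp x y) : ℝ →L[ℝ] ℝ))
      (θ + u * s, ρ + v * s))) (u, v))
      = fa (θ + u * s) (ρ + v * s) * u + fp (θ + u * s) (ρ + v * s) * v := by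
    simp [Function.HasUncurry.uncurry, ContinuousLinearMap.toSpanSingleton_apply, mul_comm]
  rw [e] at h3
  exact h3

theorem nonpos_of_antitone {F : ℝ → ℝ} {c x : ℝ} (h : Antitone F) (hd : HasDerivAt F c x) :
    c ≤ 0 := by
  rw [hasDerivAt_iff_tendsto_slope] at hd
  refine le_of_tendsto hd ?_
  filter_upwards [self_mem_nhdsWithin] with y hy
  rw [slope_def_field]
  rcases lt_or_gt_of_ne (show y ≠ x from hy) with hlt | hlt
  · have := h hlt.le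
    exact div_nonpos_of_nonneg_of_nonpos (by linarith) (by linarith)
  · have := h hlt.le
    exact div_nonpos_of_nonpos_of_nonneg (by linarith) (by linarith)

theorem quad {f fa fp P m k : ℝ → ℝ → ℝ} (hc : Cv f)
    (hfa : ∀ θ ρ, HasDerivAt (fun x => f x ρ) (fa θ ρ) θ)
    (hfp : ∀ θ ρ, HasDerivAt (fun x => f θ x) (fp θ ρ) ρ)
    (hpP : ∀ θ ρ, HasDerivAt (fun x => fp θ x) (-(P θ ρ)) ρ)
    (hpm : ∀ θ ρ, HasDerivAt (fun x => fp x ρ) (m θ ρ) θ)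
    (ham : ∀ θ ρ, HasDerivAt (fun x => fa θ x) (m θ ρ) ρ)
    (hak : ∀ θ ρ, HasDerivAt (fun x => fa x ρ) (k θ ρ) θ)
    (ca : JC fa) (cp : JC fp) (cP : JC P) (cm : JC m) (ck : JC k) (θ ρ u v : ℝ) :
    k θ ρ * u ^ 2 + 2 * m θ ρ * (u * v) - P θ ρ * v ^ 2 ≤ 0 := by
  have h1 := chain hfa hfp ca cp θ ρ u v
  have cP' : JC fun θ ρ => -(P θ ρ) := Continuous.neg cP
  have h2 := chain hak ham ck cm θ ρ u v 0
  have h3 := chain hpm hpP cm cP' θ ρ u v 0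
  have h4 : HasDerivAt (fun s => fa (θ + u * s) (ρ + v * s) * u + fp (θ + u * s) (ρ + v * s) * v)
      ((k (θ + u * 0) (ρ + v * 0) * u + m (θ + u * 0) (ρ + v * 0) * v) * u +
        (m (θ + u * 0) (ρ + v * 0) * u + -(P (θ + u * 0) (ρ + v * 0)) * v) * v) 0 :=
    (h2.mul_const u).add (h3.mul_const v)
  have hconc : ConcaveOn ℝ Set.univ fun s : ℝ => f (θ + u * s) (ρ + v * s) := by
    refine ⟨convex_univ, ?_⟩
    intro s _ s' _ a b ha hb hab
    have := hc.ineq (θ + u * s) (ρ + v * s) (θ + u * s') (ρ + v * s') a b ha hb hab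
    have e1 : a * (θ + u * s) + b * (θ + u * s') = θ + u * (a * s + b * s') := by
      have : b = 1 - a := by linarith
      subst this
      ring
    have e2 : a * (ρ + v * s) + b * (ρ + v * s') = ρ + v * (a * s + b * s') := by
      have : b = 1 - a := by linarith
      subst this
      ring
    rw [e1, e2] at this
    simpa using this
  have hanti := hconc.antitoneOn_deriv fun s _ => (h1 s).differentiableAt
  have hanti' : Antitone fun s => fa (θ + u * s) (ρ + v * s) * u +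
      fp (θ + u * s) (ρ + v * s) * v := by
    intro s s' hs
    have := hanti (mem_univ s) (mem_univ s') hs
    rw [(h1 s).deriv, (h1 s').deriv] at this
    exact this
  have h5 := nonpos_of_antitone hanti' h4
  rw [mul_zero, mul_zero, add_zero, add_zero] at h5
  nlinarith [h5]

theorem disc {P m k : ℝ} (hP : 0 ≤ P) (h : ∀ u v : ℝ, k * u ^ 2 + 2 * m * (u * v) - P * v ^ 2 ≤ 0) :
    m ^ 2 ≤ P * -k := by
  rcases hP.eq_or_lt with h0 | h0
  · rw [← h0, zero_mul]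
    by_contra hcon
    push Not at hcon
    have hm : m ≠ 0 := by
      rintro rfl
      simp at hcon
    have h1 := h 1 ((1 - k) / (2 * m))
    rw [← h0] at h1
    have e : 2 * m * (1 * ((1 - k) / (2 * m))) = 1 - k := by
      field_simp
    rw [e] at h1
    linarith
  · have h1 := h P m
    have h2 : P * (k * P + m ^ 2) ≤ 0 := by nlinarith [h1]
    have h3 : k * P + m ^ 2 ≤ 0 := by
      by_contra hcon
      push Not at hcon
      nlinarith [mul_pos h0 hcon]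
    nlinarith

/-! ### The jet -/

theorem lp_of_adm {φ : ℝ → ℝ → ℝ} (h : Adm φ) : ∃ L : ℝ, 0 ≤ L ∧ Lp L φ := by
  obtain ⟨L, hL⟩ := h.tlip
  have hr : ∀ θ ρ ρ', |φ θ ρ - φ θ ρ'| ≤ |ρ - ρ'| := by
    intro θ ρ ρ'
    rcases le_total ρ ρ' with hle | hle
    · have h1 := h.mono θ ρ ρ' hle
      have h2 := h.lip θ ρ ρ' hle
      rw [abs_of_nonpos (by linarith), abs_of_nonpos (by linarith)]
      linarith
    · have h1 := h.mono θ ρ' ρ hle
      have h2 := h.lip θ ρ' ρ hle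
      rw [abs_of_nonneg (by linarith), abs_of_nonneg (by linarith)]
      linarith
  have ht : ∀ θ θ' ρ, |φ θ ρ - φ θ' ρ| ≤ |L| * |θ - θ'| := fun θ θ' ρ =>
    (hL θ θ' ρ).trans (mul_le_mul_of_nonneg_right (le_abs_self L) (abs_nonneg _))
  refine ⟨|L|, abs_nonneg L, ?_, hr, ht⟩
  have hlip : LipschitzWith (Real.toNNReal (|L| + 1)) fun z : ℝ × ℝ => φ z.1 z.2 := by
    refine LipschitzWith.of_dist_le_mul fun z w => ?_
    rw [Real.coe_toNNReal _ (by positivity), Real.dist_eq]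
    have h1 : |φ z.1 z.2 - φ w.1 w.2| ≤ |φ z.1 z.2 - φ w.1 z.2| + |φ w.1 z.2 - φ w.1 w.2| :=
      abs_sub_le _ _ _
    have h2 := ht z.1 w.1 z.2
    have h3 := hr w.1 z.2 w.2
    have h4 : |z.1 - w.1| ≤ dist z w := by
      rw [← Real.dist_eq]
      exact le_max_left _ _
    have h5 : |z.2 - w.2| ≤ dist z w := by
      rw [← Real.dist_eq]
      exact le_max_right _ _
    have h6 : |L| * |z.1 - w.1| ≤ |L| * dist z w := mul_le_mul_of_nonneg_left h4 (abs_nonneg L)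
    linarith
  exact hlip.continuous

theorem Dr_mem {φ : ℝ → ℝ → ℝ} (h : Adm φ) {d : ℝ} (hd : 0 < d) (θ ρ : ℝ) :
    0 ≤ Dr d φ θ ρ ∧ Dr d φ θ ρ ≤ 1 := by
  have h1 := h.mono θ ρ (ρ + d) (by linarith)
  have h2 := h.lip θ ρ (ρ + d) (by linarith)
  unfold Dr
  refine ⟨div_nonneg (by linarith) hd.le, ?_⟩
  rw [div_le_one hd]
  linarith

theorem exists_jet {φ : ℝ → ℝ → ℝ} (h : Adm φ) {L d : ℝ} (hL : 0 ≤ L) (hl : Lp L φ) (hd : 0 < d) :
    ∃ J : Jet, J.f = Mt d (Mt d (Mr d (Mr d φ))) ∧ J.p = Mt d (Mt d (Mr d (Dr d φ))) := by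
  have hd0 : d ≠ 0 := hd.ne'
  have c0 : JC φ := hl.jc
  have cD : JC (Dr d φ) := jc_Dr c0
  have cM : JC (Mr d φ) := jc_Mr c0
  have hcv : Cv φ := h.conc
  have eMD : Dr d (Mr d φ) = Mr d (Dr d φ) := (comm_Mr_Dr c0).symm
  have hY : JC (Mr d (Mr d φ)) := jc_Mr cM
  have hZ : JC (Mr d (Dr d φ)) := jc_Mr cD
  have hYl : Lp L (Mr d (Mr d φ)) := hl.Mr.Mr
  have hDr := Dr_mem h hd
  have hDr1 : ∀ θ ρ, |Dr d φ θ ρ| ≤ 1 := fun θ ρ =>
    abs_le.2 ⟨by linarith [(hDr θ ρ).1], (hDr θ ρ).2⟩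
  have hZ1 : ∀ θ ρ, |Mr d (Dr d φ) θ ρ| ≤ 1 := fun θ ρ =>
    abs_le.2 ⟨by linarith [le_Mr (d := d) cD (fun θ ρ => (hDr θ ρ).1) θ ρ],
      Mr_le cD (fun θ ρ => (hDr θ ρ).2) θ ρ⟩
  have hDrr : ∀ θ ρ, Dr d (Dr d φ) θ ρ ≤ 0 := fun θ ρ => hcv.Drr hd θ ρ
  have hP0 : ∀ θ ρ, 0 ≤ -(Mt d (Mt d (Dr d (Dr d φ))) θ ρ) := fun θ ρ =>
    neg_nonneg.2 (Mt_le (jc_Mt (jc_Dr cD)) (fun θ ρ => Mt_le (jc_Dr cD) hDrr θ ρ) θ ρ)
  have hYc : Cv (Mr d (Mr d φ)) := (hcv.Mr c0).Mr cM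
  have hk0 : ∀ θ ρ, Dt d (Dt d (Mr d (Mr d φ))) θ ρ ≤ 0 := fun θ ρ => hYc.Dtt hd θ ρ
  have hfc : Cv (Mt d (Mt d (Mr d (Mr d φ)))) := (hYc.Mt hY).Mt (jc_Mt hY)
  have hfp : ∀ θ ρ, HasDerivAt (fun x => Mt d (Mt d (Mr d (Mr d φ))) θ x)
      (Mt d (Mt d (Mr d (Dr d φ))) θ ρ) ρ := fun θ ρ => by
    have := d1 hd0 cM θ ρ
    rw [eMD] at this
    exact this
  have hfa : ∀ θ ρ, HasDerivAt (fun x => Mt d (Mt d (Mr d (Mr d φ))) x ρ)
      (Mt d (Dt d (Mr d (Mr d φ))) θ ρ) θ := fun θ ρ => t1 hd0 hY θ ρ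
  have hpP : ∀ θ ρ, HasDerivAt (fun x => Mt d (Mt d (Mr d (Dr d φ))) θ x)
      (-(-(Mt d (Mt d (Dr d (Dr d φ))) θ ρ))) ρ := fun θ ρ => by
    rw [neg_neg]
    exact d1 hd0 cD θ ρ
  have hpm : ∀ θ ρ, HasDerivAt (fun x => Mt d (Mt d (Mr d (Dr d φ))) x ρ)
      (Mt d (Dt d (Mr d (Dr d φ))) θ ρ) θ := fun θ ρ => t1 hd0 hZ θ ρ
  have ham : ∀ θ ρ, HasDerivAt (fun x => Mt d (Dt d (Mr d (Mr d φ))) θ x)
      (Mt d (Dt d (Mr d (Dr d φ))) θ ρ) ρ := fun θ ρ => by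
    have := d2 hd0 cM θ ρ
    rw [eMD] at this
    exact this
  have hak : ∀ θ ρ, HasDerivAt (fun x => Mt d (Dt d (Mr d (Mr d φ))) x ρ)
      (Dt d (Dt d (Mr d (Mr d φ))) θ ρ) θ := fun θ ρ => t2 hd0 hY θ ρ
  have hmc : ∀ θ ρ, HasDerivAt (fun x => Mt d (Dt d (Mr d (Dr d φ))) x ρ)
      (Dt d (Dt d (Mr d (Dr d φ))) θ ρ) θ := fun θ ρ => t2 hd0 hZ θ ρ
  have hkc : ∀ θ ρ, HasDerivAt (fun x => Dt d (Dt d (Mr d (Mr d φ))) θ x)
      (Dt d (Dt d (Mr d (Dr d φ))) θ ρ) ρ := fun θ ρ => by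
    have := d3 hd0 cM θ ρ
    rw [eMD] at this
    exact this
  have cP : JC fun θ ρ => -(Mt d (Mt d (Dr d (Dr d φ))) θ ρ) :=
    Continuous.neg (jc_Mt (jc_Mt (jc_Dr cD)))
  have ca : JC (Mt d (Dt d (Mr d (Mr d φ)))) := jc_Mt (jc_Dt hY)
  have cp : JC (Mt d (Mt d (Mr d (Dr d φ)))) := jc_Mt (jc_Mt hZ)
  have cm : JC (Mt d (Dt d (Mr d (Dr d φ)))) := jc_Mt (jc_Dt hZ)
  have ck : JC (Dt d (Dt d (Mr d (Mr d φ)))) := jc_Dt (jc_Dt hY)
  refine ⟨⟨Mt d (Mt d (Mr d (Mr d φ))), Mt d (Mt d (Mr d (Dr d φ))),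
    Mt d (Dt d (Mr d (Mr d φ))), fun θ ρ => -(Mt d (Mt d (Dr d (Dr d φ))) θ ρ),
    Mt d (Dt d (Mr d (Dr d φ))), Dt d (Dt d (Mr d (Mr d φ))), Dt d (Dt d (Mr d (Dr d φ))),
    hfp, hfa, hpP, hpm, ham, hak, hmc, hkc, jc_Mt (jc_Mt hY), cp, ca, cP, cm, ck,
    jc_Dt (jc_Dt hZ), ?_, hP0, hk0, ?_⟩, rfl, rfl⟩
  · refine ⟨L + 2 * 1 / d + 2 * L / d + 2 * (2 * 1 / d) / d, fun θ ρ => ?_⟩
    have p1 : 0 ≤ 2 * 1 / d := by positivity
    have p2 : 0 ≤ 2 * L / d := by positivity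
    have p3 : 0 ≤ 2 * (2 * 1 / d) / d := by positivity
    refine ⟨?_, ?_, ?_, ?_, ?_⟩
    · have := abs_Mt (d := d) (jc_Dt hY) (fun θ ρ => hYl.abs_Dt hd θ ρ) θ ρ
      linarith
    · rw [abs_neg]
      have := abs_Mt (d := d) (jc_Mt (d := d) (jc_Dr cD))
        (fun θ ρ => abs_Mt (d := d) (jc_Dr cD) (fun θ ρ => abs_Dr hd hDr1 θ ρ) θ ρ) θ ρ
      linarith
    · have := abs_Mt (d := d) (jc_Dt (d := d) hZ) (fun θ ρ => abs_Dt hd hZ1 θ ρ) θ ρ
      linarith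
    · have := abs_Dt hd (fun θ ρ => hYl.abs_Dt hd θ ρ) θ ρ
      linarith
    · have := abs_Dt hd (fun θ ρ => abs_Dt hd hZ1 θ ρ) θ ρ
      linarith
  · intro θ ρ
    exact disc (hP0 θ ρ) fun u v =>
      quad hfc hfa hfp hpP hpm ham hak ca cp cP cm ck θ ρ u v

/-- **MOLL** -/
theorem moll : MollStatement := by
  intro φ h δ hδ
  obtain ⟨L, hL, hl⟩ := lp_of_adm h
  set d : ℝ := δ / (2 * L + 2) with hdd
  have hpos : 0 < 2 * L + 2 := by linarith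
  have hd : 0 < d := div_pos hδ hpos
  obtain ⟨J, hJf, hJp⟩ := exists_jet h hL hl hd
  refine ⟨J, fun θ ρ => ?_, fun θ ρ => ?_⟩
  · rw [hJf]
    have l1 : Lp L (Mr d φ) := hl.Mr
    have l2 : Lp L (Mr d (Mr d φ)) := l1.Mr
    have l3 : Lp L (Mt d (Mr d (Mr d φ))) := l2.Mt
    have n1 := hl.near_Mr hd.le θ ρ
    have n2 := l1.near_Mr hd.le θ ρ
    have n3 := l2.near_Mt hL hd.le θ ρ
    have n4 := l3.near_Mt hL hd.le θ ρ
    have e : d * (2 * L + 2) = δ := div_mul_cancel₀ _ hpos.ne'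
    rw [abs_le] at n1 n2 n3 n4 ⊢
    constructor
    · linarith [n1.1, n2.1, n3.1, n4.1]
    · linarith [n1.2, n2.2, n3.2, n4.2]
  · rw [hJp]
    have cD : JC (Dr d φ) := jc_Dr hl.jc
    have hDr := Dr_mem h hd
    have hZ : JC (Mr d (Dr d φ)) := jc_Mr cD
    exact ⟨le_Mt (jc_Mt hZ) (fun θ ρ => le_Mt hZ (fun θ ρ => le_Mr cD
        (fun θ ρ => (hDr θ ρ).1) θ ρ) θ ρ) θ ρ,
      Mt_le (jc_Mt hZ) (fun θ ρ => Mt_le hZ (fun θ ρ => Mr_le cD
        (fun θ ρ => (hDr θ ρ).2) θ ρ) θ ρ) θ ρ⟩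

end Pool.Agent.Lib.MP_fa837f_gt.TS.H16
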